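import Pool.Agent.Helper22.NP.Basic

set_option autoImplicit false

/-! Module WRT: twisting by an induced module. -/

namespace Pool.Agent.Helper22.NP

open scoped Classical

/-! ### groups -/

/-- summation over the fibres of a surjective homomorphism -/
theorem wrt_fib {G G' : Type} [Group G] [Fintype G] [Group G'] [Fintype G'] (r : G →* G')
    (hr : Function.Surjective r) (F : G' → ℕ) :
    ∑ g, F (r g) = Nat.card r.ker * ∑ t, F t := by
  rw [← Finset.sum_fiberwise_of_maps_to (s := Finset.univ) (t := Finset.univ) (g := r)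
    (fun _ _ => Finset.mem_univ _), Finset.mul_sum]
  refine Finset.sum_congr rfl fun t _ => ?_
  have h1 : ∑ g ∈ Finset.univ.filter (fun g => r g = t), F (r g) =
      ∑ g ∈ Finset.univ.filter (fun g => r g = t), F t :=
    Finset.sum_congr rfl fun g hg => by rw [(Finset.mem_filter.1 hg).2]
  rw [h1, Finset.sum_const, smul_eq_mul]
  congr 1
  rw [MonoidHom.card_fiber_eq_of_mem_range r (hr t) (hr 1), Nat.card_eq_fintype_card,
    Fintype.card_subtype]
  simp only [MonoidHom.mem_ker]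

section
variable {K Ω P W : Type} [Field K] [Field Ω] [Algebra K Ω] [Group P] [MulAction P W]

/-- the elements of `Gal(M/K)` which stabilise `x₀` -/
noncomputable def wrt_H (ρ : (Ω ≃ₐ[K] Ω) →* P) (x₀ : W) (M : IntermediateField K Ω) [Normal K M] :
    Subgroup (M ≃ₐ[K] M) :=
  ((MulAction.stabilizer P x₀).comap ρ).map (AlgEquiv.restrictNormalHom M)

theorem wrt_ker {ρ : (Ω ≃ₐ[K] Ω) →* P} {M : IntermediateField K Ω} [Normal K M]
    (h : M.fixingSubgroup ≤ ρ.ker) {σ τ : Ω ≃ₐ[K] Ω}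
    (e : AlgEquiv.restrictNormalHom M σ = AlgEquiv.restrictNormalHom M τ) : ρ σ = ρ τ := by
  have h1 : τ⁻¹ * σ ∈ (AlgEquiv.restrictNormalHom (F := K) (K₁ := Ω) M).ker := by
    rw [MonoidHom.mem_ker, map_mul, map_inv, e, inv_mul_cancel]
  rw [IntermediateField.restrictNormalHom_ker] at h1
  have h2 := h h1
  rw [MonoidHom.mem_ker, map_mul, map_inv, inv_mul_eq_one] at h2
  exact h2.symm

theorem wrt_mem {ρ : (Ω ≃ₐ[K] Ω) →* P} {x₀ : W} {M : IntermediateField K Ω} [Normal K M]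
    (h : M.fixingSubgroup ≤ ρ.ker) (σ : Ω ≃ₐ[K] Ω) :
    AlgEquiv.restrictNormalHom M σ ∈ wrt_H ρ x₀ M ↔ ρ σ • x₀ = x₀ := by
  constructor
  · rintro ⟨τ, hτ, e⟩
    rw [wrt_ker h e.symm]
    exact hτ
  · exact fun h1 => ⟨σ, h1, rfl⟩

theorem wrt_card [MulAction.IsPretransitive P W] {ρ : (Ω ≃ₐ[K] Ω) →* P}
    (hρ : Function.Surjective ρ) (x₀ : W) (M : IntermediateField K Ω) [Normal K M] [Normal K Ω]
    (h : M.fixingSubgroup ≤ ρ.ker) :
    Nat.card W * Nat.card (wrt_H ρ x₀ M) = Nat.card (M ≃ₐ[K] M) := by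
  have h1 : (wrt_H ρ x₀ M).index = Nat.card W := by
    unfold wrt_H
    rw [Subgroup.index_map_eq _ (AlgEquiv.restrictNormalHom_surjective Ω), 
      Subgroup.index_comap_of_surjective _ hρ, MulAction.index_stabilizer_of_transitive]
    rw [IntermediateField.restrictNormalHom_ker]
    intro σ hσ
    have h2 : ρ σ = 1 := h hσ
    rw [Subgroup.mem_comap, h2]
    exact Subgroup.one_mem _
  rw [← h1, mul_comm]
  exact Subgroup.card_mul_index _

end

/-! ### two levels -/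

theorem wrt_ram {K L L' : Type} [Field K] [Field L] [Field L'] [Algebra K L] [Algebra K L']
    (φ : L ≃ₐ[K] L') (v : AddValuation L (WithTop ℤ)) (v' : AddValuation L' (WithTop ℤ))
    (h : ∀ x, v' (φ x) = v x) (τ : L' ≃ₐ[K] L') :
    ram v' τ = ram v (AlgEquiv.autCongr φ.symm τ) := by
  unfold ram
  congr 1
  ext n
  constructor
  · rintro ⟨x, h1, h2⟩
    refine ⟨φ.symm x, ?_, ?_⟩
    · rw [← h, AlgEquiv.apply_symm_apply]; exact h1
    · rw [← h2, ← h, map_sub φ]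
      congr 1
      show φ (φ.symm (τ (φ (φ.symm x)))) - φ (φ.symm x) = τ x - x
      rw [AlgEquiv.apply_symm_apply, AlgEquiv.apply_symm_apply]
  · rintro ⟨x, h1, h2⟩
    refine ⟨φ x, ?_, ?_⟩
    · rw [h]; exact h1
    · rw [← h2, ← h (_ - x), map_sub φ]
      congr 1
      show τ (φ x) - φ x = φ (φ.symm (τ (φ x))) - φ x
      rw [AlgEquiv.apply_symm_apply]

section
variable {k Ω : Type} [Field k] [Field Ω] [Algebra (LaurentSeries k) Ω]

theorem wrt_ordL {L L' : Type} [Field L] [Field L'] [Algebra (LaurentSeries k) L]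
    [Algebra (LaurentSeries k) L'] (φ : L ≃ₐ[LaurentSeries k] L') (x : L) :
    ordL k L' (φ x) = ordL k L x := by
  unfold ordL
  rw [Algebra.norm_eq_of_algEquiv φ x]
  by_cases hx : x = 0
  · rw [if_pos hx, if_pos (by rw [hx, map_zero])]
  · rw [if_neg hx, if_neg fun h0 => hx (φ.injective (by rw [h0, map_zero]))]

/-- comparison of two levels -/
theorem wrt_two (hSTB : ST_STB) (p : ℕ) [Fact p.Prime] [IsAlgClosed k] [CharP k p]
    (M₀ M : IntermediateField (LaurentSeries k) Ω) [FiniteDimensional (LaurentSeries k) M₀]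
    [IsGalois (LaurentSeries k) M₀] [FiniteDimensional (LaurentSeries k) M]
    [IsGalois (LaurentSeries k) M] [Normal (LaurentSeries k) Ω] (hle : M₀ ≤ M)
    (hp : IsPGroup p (M ≃ₐ[LaurentSeries k] M)) (v₀ : AddValuation M₀ (WithTop ℤ))
    (hv₀ : ∀ x, v₀ x = ordL k M₀ x) (v : AddValuation M (WithTop ℤ)) (hv : ∀ x, v x = ordL k M x)
    (hG : GS (M ≃ₐ[LaurentSeries k] M) (iotaL k M) v) :
    ∃ r : (M ≃ₐ[LaurentSeries k] M) →* (M₀ ≃ₐ[LaurentSeries k] M₀), Function.Surjective r ∧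
      (∀ σ : Ω ≃ₐ[LaurentSeries k] Ω, r (AlgEquiv.restrictNormalHom M σ) =
        AlgEquiv.restrictNormalHom M₀ σ) ∧
      (∀ x : M₀, v (IntermediateField.inclusion hle x) = Nat.card r.ker • v₀ x) ∧
      ∀ g, g ∉ r.ker → Nat.card r.ker * ram v₀ (r g) = ∑ h : r.ker, ram v (g * (h : _)) := by
  obtain ⟨E, hE⟩ : ∃ E, E = IntermediateField.restrict hle := ⟨_, rfl⟩
  obtain ⟨φ, hφ⟩ : ∃ φ : M₀ ≃ₐ[LaurentSeries k] E, ∀ x : M₀,
      ((φ x : E) : M) = IntermediateField.inclusion hle x := by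
    subst hE
    exact ⟨IntermediateField.restrictAlgEquiv hle, fun x => rfl⟩
  have hEG : IsGalois (LaurentSeries k) E := IsGalois.of_algEquiv φ
  have hEF : FiniteDimensional (LaurentSeries k) E := LinearEquiv.finiteDimensional φ.toLinearEquiv
  obtain ⟨vE, hvE⟩ : ∃ vE : AddValuation E (WithTop ℤ), ∀ x, vE (φ x) = v₀ x :=
    ⟨v₀.comap (φ.symm : E →+* M₀), fun x => by
      show v₀ (φ.symm (φ x)) = v₀ x
      rw [AlgEquiv.symm_apply_apply]⟩
  have hvE' : ∀ x, vE x = ordL k E x := by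
    intro x
    obtain ⟨y, rfl⟩ := φ.surjective x
    rw [hvE, hv₀, wrt_ordL]
  obtain ⟨s1, s2⟩ := hSTB p k M hp v hv hG E vE hvE'
  obtain ⟨r, hr⟩ : ∃ r : (M ≃ₐ[LaurentSeries k] M) →* (M₀ ≃ₐ[LaurentSeries k] M₀),
      ∀ g, r g = AlgEquiv.autCongr φ.symm (AlgEquiv.restrictNormalHom E g) :=
    ⟨(AlgEquiv.autCongr φ.symm).toMonoidHom.comp (AlgEquiv.restrictNormalHom E), fun g => rfl⟩
  have hker : r.ker = E.fixingSubgroup := by
    rw [← IntermediateField.restrictNormalHom_ker]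
    ext g
    rw [MonoidHom.mem_ker, MonoidHom.mem_ker, hr]
    exact (AlgEquiv.autCongr φ.symm).map_eq_one_iff
  have hres : ∀ σ : Ω ≃ₐ[LaurentSeries k] Ω, r (AlgEquiv.restrictNormalHom M σ) =
      AlgEquiv.restrictNormalHom M₀ σ := by
    intro σ
    rw [hr]
    ext x
    have h1 := AlgEquiv.restrictNormal_commutes (AlgEquiv.restrictNormalHom M σ) E (φ x)
    have h2 := AlgEquiv.restrictNormal_commutes σ M (φ x : M)
    have h3 := AlgEquiv.restrictNormal_commutes σ M₀ x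
    have h4 : ∀ y : E, ((φ.symm y : M₀) : Ω) = ((y : M) : Ω) := by
      intro y
      obtain ⟨z, rfl⟩ := φ.surjective y
      rw [AlgEquiv.symm_apply_apply, hφ]
      rfl
    show ((φ.symm ((AlgEquiv.restrictNormalHom E (AlgEquiv.restrictNormalHom M σ)) (φ x)) : M₀) : Ω) =
      ((AlgEquiv.restrictNormalHom M₀ σ x : M₀) : Ω)
    rw [h4]
    have h5 : ((((AlgEquiv.restrictNormalHom E (AlgEquiv.restrictNormalHom M σ)) (φ x) : E) : M) :
        Ω) = ((AlgEquiv.restrictNormalHom M σ (φ x : M) : M) : Ω) :=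
      congrArg (fun y : M => (y : Ω)) h1
    have h6 : ((AlgEquiv.restrictNormalHom M σ (φ x : M) : M) : Ω) = σ ((φ x : M) : Ω) := h2
    have h7 : ((AlgEquiv.restrictNormalHom M₀ σ x : M₀) : Ω) = σ (x : Ω) := h3
    rw [h5, h6, h7, hφ]
    rfl
  refine ⟨r, ?_, hres, ?_, ?_⟩
  · intro τ
    obtain ⟨σ, rfl⟩ := AlgEquiv.restrictNormalHom_surjective Ω τ
    exact ⟨_, hres σ⟩
  · intro x
    rw [← hφ, s1, hker, hvE]
  · intro g hg
    rw [hker] at hg
    have := s2 g hg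
    rw [wrt_ram φ v₀ vE hvE, ← hr] at this
    have e : ∑ h : r.ker, ram v (g * (h : M ≃ₐ[LaurentSeries k] M)) =
        ∑ h : E.fixingSubgroup, ram v (g * (h : M ≃ₐ[LaurentSeries k] M)) :=
      Fintype.sum_equiv (MulEquiv.subgroupCongr hker).toEquiv _ _ fun h => rfl
    rw [e, ← this, hker]

end

/-- the sum over the complement of a subgroup at two levels -/
theorem wrt_sum {G G' : Type} [Group G] [Fintype G] [Group G'] [Fintype G'] (r : G →* G')
    (hr : Function.Surjective r) (H : Subgroup G) (H' : Subgroup G') (hH : ∀ g, g ∈ H ↔ r g ∈ H')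
    (i : G → ℕ) (i' : G' → ℕ)
    (h : ∀ g, g ∉ r.ker → Nat.card r.ker * i' (r g) = ∑ h : r.ker, i (g * (h : G))) :
    ∑ g ∈ Finset.univ.filter (fun g : G => g ∉ H), i g =
      Nat.card r.ker * ∑ t ∈ Finset.univ.filter (fun t : G' => t ∉ H'), i' t := by
  have hN : r.ker ≤ H := fun g hg => (hH g).2 (by rw [(MonoidHom.mem_ker).1 hg]; exact H'.one_mem)
  have h1 := wrt_fib r hr fun t => if t ∉ H' then i' t else 0
  rw [← Finset.sum_filter (fun t : G' => t ∉ H') i'] at h1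
  rw [← h1]
  have h2 : ∑ g, (if r g ∉ H' then i' (r g) else 0) =
      ∑ g ∈ Finset.univ.filter (fun g : G => g ∉ H), i' (r g) := by
    rw [Finset.sum_filter]
    refine Finset.sum_congr rfl fun g _ => ?_
    by_cases hg : g ∈ H
    · rw [if_neg (not_not.2 hg), if_neg (not_not.2 ((hH g).1 hg))]
    · rw [if_pos hg, if_pos fun h0 => hg ((hH g).2 h0)]
  rw [h2]
  have hc : 0 < Nat.card r.ker := Nat.card_pos
  refine Nat.eq_of_mul_eq_mul_left hc ?_
  have h3 : Nat.card r.ker * ∑ g ∈ Finset.univ.filter (fun g : G => g ∉ H), i' (r g) =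
      ∑ g ∈ Finset.univ.filter (fun g : G => g ∉ H), ∑ h : r.ker, i (g * (h : G)) := by
    rw [Finset.mul_sum]
    refine Finset.sum_congr rfl fun g hg => h g fun h0 => ?_
    exact (Finset.mem_filter.1 hg).2 (hN h0)
  rw [h3, Finset.sum_comm]
  have h4 : ∀ n : r.ker, ∑ g ∈ Finset.univ.filter (fun g : G => g ∉ H), i (g * (n : G)) =
      ∑ g ∈ Finset.univ.filter (fun g : G => g ∉ H), i g := by
    intro n
    have hn := hN n.2
    refine Finset.sum_nbij' (fun g => g * (n : G)) (fun g => g * (n : G)⁻¹) ?_ ?_ ?_ ?_ ?_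
    · intro g hg
      rw [Finset.mem_filter] at hg ⊢
      exact ⟨Finset.mem_univ _, fun h0 => hg.2 ((Subgroup.mul_mem_cancel_right H hn).1 h0)⟩
    · intro g hg
      rw [Finset.mem_filter] at hg ⊢
      exact ⟨Finset.mem_univ _, fun h0 =>
        hg.2 ((Subgroup.mul_mem_cancel_right H (H.inv_mem hn)).1 h0)⟩
    · intro g _; group
    · intro g _; group
    · intro g _; rfl
  rw [Finset.sum_congr rfl fun n _ => h4 n, Finset.sum_const, smul_eq_mul, Finset.card_univ,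
    ← Nat.card_eq_fintype_card]

theorem wrt_inv {M : Type} [Field M] (v : AddValuation M (WithTop ℤ)) (x : M) (n : ℤ)
    (h : v x = (n : WithTop ℤ)) (m : ℕ) : v (x⁻¹ ^ m) = ((-(m * n) : ℤ) : WithTop ℤ) := by
  have hx : x ≠ 0 := by
    rintro rfl
    rw [AddValuation.map_zero] at h
    exact WithTop.coe_ne_top h.symm
  have h1 : v x⁻¹ = ((-n : ℤ) : WithTop ℤ) := by
    have h2 : v (x⁻¹ * x) = 0 := by rw [inv_mul_cancel₀ hx, AddValuation.map_one]
    rw [AddValuation.map_mul, h] at h2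
    have hne : v x⁻¹ ≠ ⊤ := by
      intro h3
      rw [h3, WithTop.top_add] at h2
      exact absurd h2 WithTop.top_ne_zero
    obtain ⟨a, ha⟩ := WithTop.ne_top_iff_exists.1 hne
    rw [← ha] at h2 ⊢
    have h3 : ((a + n : ℤ) : WithTop ℤ) = ((0 : ℤ) : WithTop ℤ) := h2
    have h4 : a + n = 0 := WithTop.coe_injective h3
    have h5 : a = -n := by omega
    rw [h5]
  rw [AddValuation.map_pow, h1, ← WithTop.coe_nsmul, nsmul_eq_mul, mul_neg]

/-- the choice of `m` -/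
theorem wrt_m (p : ℕ) (hp : 2 < p) (d B N : ℕ) :
    ∃ m : ℕ, N < m ∧ ¬ p ∣ m ∧ ¬ p ∣ m + 1 + d ∧ B ≤ m + 1 + d := by
  by_cases h : p ∣ 1 + 1 + d
  · refine ⟨p * (N + B + 1) + 2, by nlinarith, ?_, ?_, by nlinarith⟩
    · intro h1
      have := (Nat.dvd_add_right (Dvd.intro _ rfl)).1 h1
      have := Nat.le_of_dvd (by norm_num) this
      omega
    · intro h1
      have e : p * (N + B + 1) + 2 + 1 + d = p * (N + B + 1) + (1 + (1 + 1 + d)) := by ring
      rw [e] at h1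
      have h2 := (Nat.dvd_add_right (Dvd.intro _ rfl)).1 h1
      have h3 := (Nat.dvd_add_left h).1 h2
      have := Nat.le_of_dvd (by norm_num) h3
      omega
  · refine ⟨p * (N + B + 1) + 1, by nlinarith, ?_, ?_, by nlinarith⟩
    · intro h1
      have := (Nat.dvd_add_right (Dvd.intro _ rfl)).1 h1
      have := Nat.le_of_dvd (by norm_num) this
      omega
    · intro h1
      have e : p * (N + B + 1) + 1 + 1 + d = p * (N + B + 1) + (1 + 1 + d) := by ring
      rw [e] at h1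
      exact h ((Nat.dvd_add_right (Dvd.intro _ rfl)).1 h1)


/-- `zc` vanishes only at the trivial element -/
theorem wrt_zc (p : ℕ) [Fact p.Prime] (R : Type) [Field R] [CharP R p]
    (a : Multiplicative (ZMod p)) : zc p R a = 0 ↔ a = 1 := by
  unfold zc
  rw [CharP.cast_eq_zero_iff R p]
  constructor
  · intro h
    have h1 := Nat.eq_zero_of_dvd_of_lt h (ZMod.val_lt _)
    have h2 : Multiplicative.toAdd a = 0 := (ZMod.val_eq_zero _).1 h1
    exact Multiplicative.toAdd.injective h2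
  · rintro rfl
    rw [toAdd_one, ZMod.val_zero]
    exact dvd_zero p

/-- (WRT) -/
theorem st_WRT (hOMG : ST_OMG) (hSUR : ST_SUR) (hRHO : ST_RHO) (hWR1 : ST_WR1) (hLVL : ST_LVL)
    (hSTB : ST_STB) (hDIF : ST_DIF) (hTRM : ST_TRM) (hASL : ST_ASL) (hREL : ST_REL)
    (hGSK : ST_GSK) (hPMO : ST_PMO) (hRFI : ST_RFI) : ST_WRT := by
  intro p hpF hp2 k P W _ _ _ _ _ _ hWn _ _ hP α hα hαe B
  have hpp : p.Prime := hpF.out
  have hp3 : 2 < p := lt_of_le_of_ne hpp.two_le (Ne.symm hp2)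
  have hcK : CharP (LaurentSeries k) p := charP_of_ring (HahnSeries.C : k →+* LaurentSeries k)
  obtain ⟨x₀⟩ := hWn
  have hnt : Nontrivial P := by
    refine ⟨α (Multiplicative.ofAdd fun _ => 1), 1, fun h => ?_⟩
    rw [← map_one α] at h
    have h1 := congrFun (congrArg Multiplicative.toAdd (hα h)) x₀
    exact one_ne_zero h1
  obtain ⟨Ω, iF, iA, hΩ, _⟩ := hOMG p (LaurentSeries k)
  have hgal : IsGalois (LaurentSeries k) Ω := hΩ.gal
  obtain ⟨ρ, hρF, hρS⟩ := hSUR p k P Ω hΩ hP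
  obtain ⟨u, _, hu⟩ := hRHO p k Ω hΩ P ρ hρF hρS
  have hρF' := hρF
  obtain ⟨M₁, hM₁f, hM₁g, hM₁⟩ := hρF
  obtain ⟨M₀, h0f, h0g, h0le, _, _, h0p⟩ :=
    hLVL p (LaurentSeries k) Ω hΩ M₁ M₁ hM₁f hM₁g hM₁f hM₁g ∅
  have h0 : M₀.fixingSubgroup ≤ ρ.ker := (IntermediateField.fixingSubgroup_antitone h0le).trans hM₁
  obtain ⟨v₀, hv₀, hG₀⟩ := hGSK p k M₀ h0p
  obtain ⟨⟨t₁, ht1, ht2⟩, _⟩ := hTRM _ k M₀ (iotaL k M₀) v₀ hG₀ (wrt_H ρ x₀ M₀)
  obtain ⟨d, hd⟩ := hDIF _ k M₀ (iotaL k M₀) v₀ hG₀ (wrt_H ρ x₀ M₀)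
  obtain ⟨q, hq⟩ : ∃ q : ℕ, q = Nat.card W := ⟨_, rfl⟩
  have hq0 : 0 < q := by
    rw [hq]
    have : Nonempty W := ⟨x₀⟩
    exact Nat.card_pos
  obtain ⟨N, hN⟩ := exists_nat_gt ((u + 1) * q)
  obtain ⟨m, hm1, hm2, hm3, hm4⟩ := wrt_m p hp3 d B N
  -- the twist
  obtain ⟨x, Y, e, κ, ρ', hκ, hx0, hx, hY, hYσ, hρ', hF', hS'⟩ :
      ∃ (x Y : W → Ω) (e : (Ω ≃ₐ[LaurentSeries k] Ω) → W → Multiplicative (ZMod p)) (κ : k)
        (ρ' : (Ω ≃ₐ[LaurentSeries k] Ω) →* P), κ ≠ 0 ∧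
        x x₀ = tz k Ω 0 κ * ((t₁⁻¹ ^ m : M₀) : Ω) ∧
        (∀ σ w, σ (x w) = x (ρ σ • w)) ∧ (∀ w, Y w ^ p - Y w = x w) ∧
        (∀ σ w, σ (Y w) = Y (ρ σ • w) + zc p Ω (e σ (ρ σ • w))) ∧
        (∀ σ, ρ' σ = α (Multiplicative.ofAdd fun w => Multiplicative.toAdd (e σ w)) * ρ σ) ∧
        FL ρ' ∧ Function.Surjective ρ' := by
    obtain ⟨κ, x, Y, e, ρ', h⟩ := hWR1 p k P W Ω hΩ hP α hαe ρ hρF' hρS x₀
      ((t₁⁻¹ ^ m : M₀) : Ω) (by
        intro σ hσ
        have h1 : AlgEquiv.restrictNormalHom M₀ σ t₁ = t₁ := ht1 _ ((wrt_mem h0 σ).2 hσ)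
        have h2 : AlgEquiv.restrictNormalHom M₀ σ (t₁⁻¹ ^ m) = t₁⁻¹ ^ m := by
          rw [map_pow, map_inv₀, h1]
        have h3 := AlgEquiv.restrictNormal_commutes σ M₀ (t₁⁻¹ ^ m)
        have h4 : σ ((t₁⁻¹ ^ m : M₀) : Ω) =
          ((AlgEquiv.restrictNormalHom M₀ σ (t₁⁻¹ ^ m) : M₀) : Ω) := h3.symm
        rw [h4, h2])
    exact ⟨x, Y, e, κ, ρ', h⟩
  obtain ⟨c', hc', hcond⟩ := hRHO p k Ω hΩ P ρ' hF' hS'
  obtain ⟨M₂, hM₂f, hM₂g, hM₂⟩ := hF'
  obtain ⟨M, hMf, hMg, hM0, hM2, hMS, hMp⟩ :=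
    hLVL p (LaurentSeries k) Ω hΩ M₀ M₂ h0f h0g hM₂f hM₂g (Finset.univ.image Y)
  have hMρ : M.fixingSubgroup ≤ ρ.ker := (IntermediateField.fixingSubgroup_antitone hM0).trans h0
  have hMρ' : M.fixingSubgroup ≤ ρ'.ker :=
    (IntermediateField.fixingSubgroup_antitone hM2).trans hM₂
  obtain ⟨v, hv, hG⟩ := hGSK p k M hMp
  obtain ⟨r, hrs, hres, hvr, hram⟩ := wrt_two hSTB p M₀ M hM0 hMp v₀ hv₀ v hv hG
  have hlift : ∀ g : M ≃ₐ[LaurentSeries k] M, ∃ σ : Ω ≃ₐ[LaurentSeries k] Ω,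
      AlgEquiv.restrictNormalHom M σ = g := AlgEquiv.restrictNormalHom_surjective Ω
  have hact : ∀ (σ : Ω ≃ₐ[LaurentSeries k] Ω) (z : M),
      ((AlgEquiv.restrictNormalHom M σ z : M) : Ω) = σ (z : Ω) :=
    fun σ z => AlgEquiv.restrictNormal_commutes σ M z
  obtain ⟨H, hH⟩ : ∃ H, H = wrt_H ρ x₀ M := ⟨_, rfl⟩
  have hmem : ∀ σ, AlgEquiv.restrictNormalHom M σ ∈ H ↔ ρ σ • x₀ = x₀ := by
    rw [hH]; exact wrt_mem hMρ
  have hsum : ∑ g ∈ Finset.univ.filter (fun g => g ∉ H), ram v g =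
      Nat.card r.ker * (Nat.card (wrt_H ρ x₀ M₀) * d) := by
    rw [← hd]
    refine wrt_sum r hrs H (wrt_H ρ x₀ M₀) ?_ (ram v) (ram v₀) hram
    intro g
    obtain ⟨σ, rfl⟩ := hlift g
    rw [hmem, hres, wrt_mem h0]
  have hcG : q * Nat.card H = Nat.card (M ≃ₐ[LaurentSeries k] M) := by
    rw [hq, hH]; exact wrt_card hρS x₀ M hMρ
  have hcG₀ : q * Nat.card (wrt_H ρ x₀ M₀) = Nat.card (M₀ ≃ₐ[LaurentSeries k] M₀) := by
    rw [hq]; exact wrt_card hρS x₀ M₀ h0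
  have hcr : Nat.card (M ≃ₐ[LaurentSeries k] M) =
      Nat.card r.ker * Nat.card (M₀ ≃ₐ[LaurentSeries k] M₀) := by
    have := wrt_fib r hrs fun _ => 1
    simp only [Finset.sum_const, smul_eq_mul, mul_one, Finset.card_univ] at this
    rw [Nat.card_eq_fintype_card, Nat.card_eq_fintype_card (α := M₀ ≃ₐ[LaurentSeries k] M₀)]
    exact this
  have hcH : Nat.card H = Nat.card r.ker * Nat.card (wrt_H ρ x₀ M₀) := by
    refine Nat.eq_of_mul_eq_mul_left hq0 ?_
    rw [hcG, hcr, ← hcG₀]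
    ring
  have hcH0 : 0 < Nat.card H := Nat.card_pos
  -- the Artin-Schreier element
  obtain ⟨y, hy⟩ : ∃ y : M, (y : Ω) = Y x₀ :=
    ⟨⟨Y x₀, hMS _ (Finset.mem_image_of_mem Y (Finset.mem_univ _))⟩, rfl⟩
  have hyx : ((y ^ p - y : M) : Ω) = x x₀ := by
    rw [← hY x₀, ← hy]
    rfl
  have hyv : v (y ^ p - y) = ((-((m * Nat.card H : ℕ) : ℤ) : ℤ) : WithTop ℤ) := by
    have h1 : y ^ p - y = iotaL k M κ * IntermediateField.inclusion hM0 (t₁⁻¹ ^ m) := by
      apply Subtype.ext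
      show ((y ^ p - y : M) : Ω) = _
      rw [hyx, hx0]
      rfl
    rw [h1, AddValuation.map_mul, hG.rv.cst κ hκ, zero_add, hvr, wrt_inv v₀ t₁ _ ht2 m,
      ← WithTop.coe_nsmul, nsmul_eq_mul, hcH]
    congr 1
    push_cast
    ring
  obtain ⟨⟨h₁, hh₁⟩, hPhiH⟩ := hASL p H k M (iotaL k M) v (hG.sub H) (hMp.to_subgroup H) y m
    (by
      intro g
      obtain ⟨σ, hσ⟩ := hlift g
      have h1 : ρ σ • x₀ = x₀ := (hmem σ).1 (by rw [hσ]; exact g.2)
      apply Subtype.ext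
      show (((g : M ≃ₐ[LaurentSeries k] M) (y ^ p - y) : M) : Ω) = ((y ^ p - y : M) : Ω)
      rw [← hσ, hact, hyx, hx, h1]) hyv (by omega) hm2
  have hcΩ : CharP Ω p := charP_of_injective_ringHom (algebraMap (LaurentSeries k) Ω).injective p
  obtain ⟨L, hL⟩ : ∃ L, L = lev (ram (G := H) v) {g : H | g • y ≠ y} := ⟨_, rfl⟩
  rw [← hL] at hPhiH
  obtain ⟨l0, hl0⟩ : ∃ l0, l0 = lev (ram (G := M ≃ₐ[LaurentSeries k] M) v) (mv ρ M) := ⟨_, rfl⟩
  have hu' := hu M hMρ v hv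
  rw [← hl0] at hu'
  obtain ⟨_, rel2, rel3⟩ := hREL (M ≃ₐ[LaurentSeries k] M) (ram v) H L
  have hPhiH' : Phi (fun h : H => ram v (h : M ≃ₐ[LaurentSeries k] M)) L = m + 1 := hPhiH
  rw [hPhiH'] at rel2 rel3
  have hcG' : (q : ℚ) * (Nat.card H : ℚ) = (Nat.card (M ≃ₐ[LaurentSeries k] M) : ℚ) := by
    exact_mod_cast hcG
  have hcHQ : (0 : ℚ) < (Nat.card H : ℚ) := by exact_mod_cast hcH0
  have hl0L : l0 < L := by
    by_contra hcon
    have h1 : Phi (ram (G := M ≃ₐ[LaurentSeries k] M) v) L ≤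
        Phi (ram (G := M ≃ₐ[LaurentSeries k] M) v) l0 := by
      rcases (not_lt.1 hcon).eq_or_lt with h | h
      · rw [h]
      · exact ((hPMO _ (ram (G := M ≃ₐ[LaurentSeries k] M) v) L l0).1 h).le
    rw [← hu'] at h1
    rw [← hcG'] at rel2
    have h2 : ((m : ℚ) + 1) * (Nat.card H : ℚ) ≤ ((u + 1) * q) * (Nat.card H : ℚ) := by
      refine rel2.trans ?_
      rw [← mul_assoc]
      exact mul_le_mul_of_nonneg_right (mul_le_mul_of_nonneg_right h1 (Nat.cast_nonneg _)) hcHQ.le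
    have h3 := le_of_mul_le_mul_right h2 hcHQ
    have h4 : (N : ℚ) < m := by exact_mod_cast hm1
    linarith
  have hout : ∀ g : M ≃ₐ[LaurentSeries k] M, g ∉ H → ram v g ≤ L := by
    intro g hg
    obtain ⟨σ, rfl⟩ := hlift g
    rw [hmem] at hg
    have h1 : AlgEquiv.restrictNormalHom M σ ∈ mv ρ M :=
      ⟨σ, rfl, fun h => hg (by rw [h, one_smul])⟩
    exact ((le_lev (ram (G := M ≃ₐ[LaurentSeries k] M) v) _ h1).trans hl0.ge).trans hl0L.le
  have hker : ∀ σ : Ω ≃ₐ[LaurentSeries k] Ω,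
      l0 < ram (G := M ≃ₐ[LaurentSeries k] M) v (AlgEquiv.restrictNormalHom M σ) → ρ σ = 1 := by
    intro σ h1
    by_contra h2
    have h3 := le_lev (ram (G := M ≃ₐ[LaurentSeries k] M) v) (mv ρ M)
      (g := AlgEquiv.restrictNormalHom M σ) ⟨σ, rfl, h2⟩
    rw [← hl0] at h3
    omega
  have hlev : lev (ram (G := M ≃ₐ[LaurentSeries k] M) v) (mv ρ' M) = L := by
    apply le_antisymm
    · refine lev_le _ _ _ ?_
      rintro g ⟨σ, rfl, hσ⟩
      by_contra hcon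
      push Not at hcon
      have h1 : ρ σ = 1 := hker σ (hl0L.trans hcon)
      rw [hρ', h1, mul_one] at hσ
      obtain ⟨w, hw⟩ : ∃ w, e σ w ≠ 1 := by
        by_contra h2
        push Not at h2
        apply hσ
        have h3 : (Multiplicative.ofAdd fun w => Multiplicative.toAdd (e σ w)) = 1 := by
          apply Multiplicative.toAdd.injective
          funext w
          show Multiplicative.toAdd (e σ w) = 0
          rw [h2 w]
          rfl
        rw [h3, map_one]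
      obtain ⟨t, ht⟩ := MulAction.exists_smul_eq P w x₀
      obtain ⟨τ, hτ⟩ := hρS t
      have h2 : τ (Y w) = Y x₀ + zc p Ω (e τ x₀) := by
        rw [hYσ, hτ, ht]
      have h3 : σ (Y w) = Y w + zc p Ω (e σ w) := by
        rw [hYσ, h1, one_smul]
      have hz : ∀ (φ : Ω ≃ₐ[LaurentSeries k] Ω) (a : Multiplicative (ZMod p)),
          φ (zc p Ω a) = zc p Ω a := fun φ a => map_natCast φ _
      have h4 : (τ * σ * τ⁻¹) (Y x₀) = Y x₀ + zc p Ω (e σ w) := by
        have h5 : Y x₀ = τ (Y w) - zc p Ω (e τ x₀) := by rw [h2]; ring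
        have h6 : τ⁻¹ (Y x₀) = Y w - zc p Ω (e τ x₀) := by
          rw [h5, map_sub τ⁻¹, hz]
          congr 1
          exact τ.symm_apply_apply _
        show τ (σ (τ⁻¹ (Y x₀))) = _
        rw [h6, map_sub σ, hz, h3, map_sub τ, hz, map_add τ, hz, h2]
        ring
      have h5 : AlgEquiv.restrictNormalHom M (τ * σ * τ⁻¹) ∈ H := by
        rw [hmem, map_mul, map_mul, h1, mul_one, ← map_mul, mul_inv_cancel, map_one, one_smul]
      have h6 : (⟨_, h5⟩ : H) ∈ {g : H | g • y ≠ y} := by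
        intro h7
        have h8 : ((AlgEquiv.restrictNormalHom M (τ * σ * τ⁻¹) y : M) : Ω) = (y : Ω) :=
          congrArg (fun z : M => (z : Ω)) h7
        rw [hact, hy, h4] at h8
        have h9 : zc p Ω (e σ w) = 0 := by linear_combination h8
        exact hw ((wrt_zc p Ω _).1 h9)
      have h7 := le_lev (ram (G := H) v) _ h6
      rw [← hL] at h7
      have h8 : ram (G := H) v ⟨_, h5⟩ =
          ram (G := M ≃ₐ[LaurentSeries k] M) v (AlgEquiv.restrictNormalHom M σ) := by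
        show ram (G := M ≃ₐ[LaurentSeries k] M) v
          (AlgEquiv.restrictNormalHom M (τ * σ * τ⁻¹)) = _
        rw [map_mul, map_mul, map_inv]
        exact (hRFI _ k M (iotaL k M) v hG).conj _ _
      omega
    · obtain ⟨h₂, hh₂, hL2⟩ := lev_mem (ram (G := H) v) {g : H | g • y ≠ y} ⟨h₁, hh₁⟩
      rw [← hL] at hL2
      obtain ⟨σ, hσ⟩ := hlift h₂
      have hL3 : ram (G := M ≃ₐ[LaurentSeries k] M) v (AlgEquiv.restrictNormalHom M σ) = L := by
        rw [hσ]; exact hL2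
      have h1 : ρ σ = 1 := hker σ (by rw [hL3]; exact hl0L)
      rw [← hL3]
      apply le_lev
      refine ⟨σ, rfl, fun h3 => ?_⟩
      rw [hρ', h1, mul_one] at h3
      have h4 := hα (h3.trans (map_one α).symm)
      have h5 : Multiplicative.toAdd (e σ x₀) = 0 :=
        congrFun (congrArg Multiplicative.toAdd h4) x₀
      have h6 : e σ x₀ = 1 := Multiplicative.toAdd.injective h5
      apply hh₂
      apply Subtype.ext
      show (((h₂ : M ≃ₐ[LaurentSeries k] M) y : M) : Ω) = (y : Ω)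
      rw [← hσ, hact, hy, hYσ, h1, one_smul, h6, (wrt_zc p Ω 1).2 rfl, add_zero]
  have h6 := hcond M hMρ' v hv
  rw [hlev] at h6
  have h7 := rel3 hout
  refine ⟨m + 1 + d, hm4, hm3, ?_⟩
  have h8 : ((m + 1 + d : ℕ) : ℚ) / (Fintype.card W : ℚ) - 1 = c' := by
    have h9 : (∑ g ∈ Finset.univ.filter (fun g => g ∉ H), (ram v g : ℚ)) =
        (Nat.card H : ℚ) * d := by
      have h10 : ((∑ g ∈ Finset.univ.filter (fun g => g ∉ H), ram v g : ℕ) : ℚ) =
          ((Nat.card H * d : ℕ) : ℚ) := by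
        rw [hsum, hcH, mul_assoc]
      rw [Nat.cast_sum, Nat.cast_mul] at h10
      exact h10
    rw [← h6, ← hcG'] at h7
    have h10 : (c' + 1) * q = (m : ℚ) + 1 + d := by
      have h11 : ((c' + 1) * q) * (Nat.card H : ℚ) = ((m : ℚ) + 1 + d) * (Nat.card H : ℚ) := by
        rw [mul_assoc, h7]
        push_cast
        rw [h9]
        ring
      exact mul_right_cancel₀ hcHQ.ne' h11
    have hqQ : (0 : ℚ) < q := by exact_mod_cast hq0
    have h12 : (Fintype.card W : ℚ) = q := by rw [hq, Nat.card_eq_fintype_card]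
    rw [h12]
    push_cast
    rw [← h10]
    field_simp
    ring
  rw [h8]
  exact hc'

end Pool.Agent.Helper22.NP
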